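import Pool.Agent.Q151.SI.Detb

/-!
# Project SI (helper120), job CNT: the number of bad integers
-/

set_option autoImplicit false

namespace Pool.Agent.Q151.SI

open Finset MeasureTheory Filter Pool.Agent.Q120.ET Pool.Agent.Q120.GM Pool.Agent.Q120.GE
open Pool.Agent.Q120.RZ Pool.Agent.Q120.SI
open scoped Topology

theorem gl_pos {ε κ : ℝ} (hκ : 0 < κ) (k : ℕ) : 1 ≤ gl ε κ k := by
  unfold gl
  exact Nat.ceil_pos.mpr (by positivity)

theorem gl_le {ε κ : ℝ} (hκ : 0 < κ) (hκ1 : κ ≤ 1) (k : ℕ) : (gl ε κ k : ℝ) ≤ (2 : ℝ) ^ (ε * k) + 1 := by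
  unfold gl
  have h1 := Nat.ceil_lt_add_one (show 0 ≤ κ * (2 : ℝ) ^ (ε * k) by positivity)
  have h2 : (0 : ℝ) < (2 : ℝ) ^ (ε * k) := by positivity
  nlinarith

theorem t_CNT : J_CNT := by
  classical
  intro hDET η κ hη hη1 hκ
  obtain ⟨κ', hκ'0, hκ'1, K, hK⟩ := hDET η (min κ 1) hη hη1 (lt_min hκ one_pos) (min_le_right _ _)
  refine ⟨κ', hκ'0, hκ'1, K, fun S k hk => ?_⟩
  obtain ⟨W, hW⟩ : ∃ W : ℝ, W = (2 : ℝ) ^ (η * ((k + 1 : ℕ) : ℝ)) := ⟨_, rfl⟩
  have hW0 : 0 < W := by rw [hW]; positivity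
  obtain ⟨w, hw⟩ : ∃ w : ℝ, w = (2 : ℝ) ^ (η * (k : ℝ)) := ⟨_, rfl⟩
  have hw1 : 1 ≤ w := by
    rw [hw]
    exact Real.one_le_rpow (by norm_num) (by positivity)
  have hWw : W ≤ 2 * w := by
    have e : W = 2 ^ η * w := by
      rw [hW, hw, ← Real.rpow_add (by norm_num)]
      congr 1
      push_cast
      ring
    have h2 : (2 : ℝ) ^ η ≤ 2 := by
      have := Real.rpow_le_rpow_of_exponent_le (show (1 : ℝ) ≤ 2 by norm_num) hη1.le
      rwa [Real.rpow_one] at this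
    rw [e]
    nlinarith
  obtain ⟨BJ, hBJ⟩ : ∃ BJ : ℕ → Finset ℕ, BJ = fun i =>
    (range (2 ^ i)).filter (fun j => Badc S i (gl η κ' i) κ' j) := ⟨_, rfl⟩
  obtain ⟨T, hT⟩ : ∃ T : ℕ → Finset ℕ, T = fun i => (BJ i).biUnion (fun j =>
    Ico (2 ^ i + j * gl η κ' i - ⌈W⌉₊) (2 ^ i + j * gl η κ' i + gl η κ' i)) := ⟨_, rfl⟩
  have hTc : ∀ i, i = k ∨ i = k + 1 → ((T i).card : ℝ) ≤ (BJ i).card * (6 * w) := by
    intro i hi
    have hg := gl_le (ε := η) hκ'0 hκ'1 i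
    have hgi : (gl η κ' i : ℝ) ≤ W + 1 := by
      refine hg.trans ?_
      have : (2 : ℝ) ^ (η * (i : ℝ)) ≤ W := by
        rw [hW]
        apply Real.rpow_le_rpow_of_exponent_le (by norm_num)
        apply mul_le_mul_of_nonneg_left _ hη.le
        rcases hi with rfl | rfl
        · push_cast; linarith
        · exact le_rfl
      linarith
    have h1 : (T i).card ≤ (BJ i).card * (gl η κ' i + ⌈W⌉₊) := by
      rw [hT]
      refine Finset.card_biUnion_le_card_mul _ _ _ (fun j _ => ?_)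
      rw [Nat.card_Ico]
      omega
    have h2 : ((T i).card : ℝ) ≤ (BJ i).card * ((gl η κ' i : ℝ) + (⌈W⌉₊ : ℝ)) := by
      exact_mod_cast h1
    refine h2.trans (mul_le_mul_of_nonneg_left ?_ (Nat.cast_nonneg _))
    have h3 := Nat.ceil_lt_add_one hW0.le
    linarith
  have hsub : (block k).filter (fun n : ℕ => κ < |cn S n ((n : ℝ) ^ η) * Real.log n / (n : ℝ) ^ η - 1|) ⊆
      T k ∪ T (k + 1) := by
    intro n hn
    rw [mem_filter] at hn
    obtain ⟨hnb, hnk⟩ := hn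
    rw [block, mem_Ico] at hnb
    have hn1 : (1 : ℝ) ≤ n := by
      have : 1 ≤ n := le_trans (Nat.one_le_two_pow) hnb.1
      exact_mod_cast this
    have hx1 : (2 : ℝ) ^ k ≤ n := by exact_mod_cast hnb.1
    have hx2 : (n : ℝ) < (2 : ℝ) ^ (k + 1) := by exact_mod_cast hnb.2
    have hnη : (n : ℝ) ^ η ≤ n := by
      have := Real.rpow_le_rpow_of_exponent_le hn1 hη1.le
      rwa [Real.rpow_one] at this
    have h1 := hK S k hk n ((n : ℝ) ^ η) hx1 hx2 le_rfl hnη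
    have h2 : ¬ (∀ i : ℕ, i = k ∨ i = k + 1 → ∀ j : ℕ,
        (∃ n' ∈ cell i (gl η κ' i) j, n' ∈ iv (n : ℝ) ((n : ℝ) ^ η)) → ¬ Badc S i (gl η κ' i) κ' j) := by
      intro h3
      have h4 := (h1 h3).trans (min_le_left κ 1)
      linarith
    push Not at h2
    obtain ⟨i, hi, j, ⟨n', hn'1, hn'2⟩, hbad⟩ := h2
    rw [cell, mem_Ico, lt_min_iff] at hn'1
    obtain ⟨hc1, hc2, hc3⟩ := hn'1
    have hiv : (n : ℝ) < n' ∧ (n' : ℝ) ≤ n + (n : ℝ) ^ η := by
      unfold iv at hn'2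
      exact (mem_filter.1 hn'2).2
    have hg1 := gl_pos (ε := η) hκ'0 i
    have hj : j < 2 ^ i := by
      have e : 2 ^ (i + 1) = 2 ^ i + 2 ^ i := by ring
      have h5 : j * gl η κ' i < 2 ^ i := by omega
      have h6 : j * 1 ≤ j * gl η κ' i := Nat.mul_le_mul_left j hg1
      omega
    have hjB : j ∈ BJ i := by
      rw [hBJ]
      simp only [mem_filter, mem_range]
      exact ⟨hj, hbad⟩
    have hmem : n ∈ T i := by
      rw [hT]
      simp only [mem_biUnion]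
      refine ⟨j, hjB, ?_⟩
      rw [mem_Ico]
      constructor
      · have h7 : (n : ℝ) ^ η ≤ W := by
          rw [hW, mul_comm, Real.rpow_mul (by norm_num), Real.rpow_natCast]
          exact Real.rpow_le_rpow (by linarith) hx2.le hη.le
        have h8 : (n' : ℝ) ≤ n + (⌈W⌉₊ : ℝ) := by
          have := Nat.le_ceil W
          linarith [hiv.2]
        have h9 : n' ≤ n + ⌈W⌉₊ := by exact_mod_cast h8
        omega
      · have h10 : n < n' := by exact_mod_cast hiv.1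
        have e2 : (j + 1) * gl η κ' i = j * gl η κ' i + gl η κ' i := by ring
        omega
    rw [mem_union]
    rcases hi with rfl | rfl
    · exact Or.inl hmem
    · exact Or.inr hmem
  have h1 := (Finset.card_le_card hsub).trans (Finset.card_union_le _ _)
  have h2 : (nx S η κ k : ℝ) ≤ ((T k).card : ℝ) + ((T (k + 1)).card : ℝ) := by
    unfold nx
    exact_mod_cast h1
  have h3 := hTc k (Or.inl rfl)
  have h4 := hTc (k + 1) (Or.inr rfl)
  have e1 : ((BJ k).card : ℝ) = nbad S k (gl η κ' k) κ' := by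
    rw [hBJ]
    rfl
  have e2 : ((BJ (k + 1)).card : ℝ) = nbad S (k + 1) (gl η κ' (k + 1)) κ' := by
    rw [hBJ]
    rfl
  rw [e1] at h3
  rw [e2] at h4
  rw [← hw]
  have h5 : (0 : ℝ) ≤ nbad S k (gl η κ' k) κ' := Nat.cast_nonneg _
  have h6 : (0 : ℝ) ≤ nbad S (k + 1) (gl η κ' (k + 1)) κ' := Nat.cast_nonneg _
  nlinarith

end Pool.Agent.Q151.SI
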