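import Pool.Agent.Q151.SI.Upb

/-!
# Project SI (helper120), job DETB: from the intervals of a block to all intervals
-/

set_option autoImplicit false

namespace Pool.Agent.Q151.SI

open Finset MeasureTheory Filter Pool.Agent.Q120.ET Pool.Agent.Q120.GM Pool.Agent.Q120.GE
open Pool.Agent.Q120.RZ Pool.Agent.Q120.SI
open scoped Topology

open Classical in
theorem dev_eq (S : Set ℕ) (I : Finset ℕ) : (num' S I : ℝ) - ∑ n ∈ I, pc n =
    ∑ n ∈ I, ((if n ∈ S then (1 : ℝ) else 0) - pc n) := by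
  rw [Finset.sum_sub_distrib]
  congr 1
  unfold num'
  rw [Finset.card_filter]
  push_cast
  rfl

theorem dev_Ioc (S : Set ℕ) {a c b : ℕ} (h1 : a ≤ c) (h2 : c ≤ b) :
    (num' S (Ioc a b) : ℝ) - ∑ n ∈ Ioc a b, pc n =
      ((num' S (Ioc a c) : ℝ) - ∑ n ∈ Ioc a c, pc n) +
      ((num' S (Ioc c b) : ℝ) - ∑ n ∈ Ioc c b, pc n) := by
  rw [dev_eq, dev_eq, dev_eq]
  exact (Finset.sum_Ioc_consecutive _ h1 h2).symm

theorem iv_eq {x H : ℝ} (hx : 0 ≤ x) (hH : 0 ≤ H) : iv x H = Ioc ⌊x⌋₊ ⌊x + H⌋₊ := by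
  classical
  ext n
  unfold iv
  rw [mem_filter, mem_range, mem_Ioc, Nat.floor_lt hx, Nat.le_floor_iff (by linarith)]
  constructor
  · rintro ⟨_, h2, h3⟩
    exact ⟨h2, h3⟩
  · rintro ⟨h2, h3⟩
    refine ⟨?_, h2, h3⟩
    have := Nat.le_floor h3
    omega

theorem card_iv {x H : ℝ} (hx : 0 ≤ x) (hH : 0 ≤ H) :
    ((⌊x + H⌋₊ : ℕ) : ℝ) - ((⌊x⌋₊ : ℕ) : ℝ) ≤ H + 1 := by
  have h1 : ((⌊x + H⌋₊ : ℕ) : ℝ) ≤ x + H := Nat.floor_le (by linarith)
  have h2 := Nat.lt_floor_add_one x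
  linarith

theorem t_DETB : J_DETB := by
  intro S δ hδ hyp ε hε
  obtain ⟨K, hK⟩ := eventually_atTop.1 (hyp ε hε)
  obtain ⟨θ, hθ⟩ : ∃ θ : ℝ, θ = δ + ε := ⟨_, rfl⟩
  have hθ0 : 0 < θ := by rw [hθ]; linarith
  rw [← hθ] at hK
  obtain ⟨C₁, hC₁⟩ : ∃ C₁ : ℝ, C₁ = Real.sqrt (2 * (2 : ℝ) ^ θ) := ⟨_, rfl⟩
  have hC₁0 : 0 ≤ C₁ := by rw [hC₁]; exact Real.sqrt_nonneg _
  refine ⟨2 * C₁ + 2 ^ (K + 1), by positivity, fun x H hx hH hHx => ?_⟩
  rw [← hθ]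
  have hx0 : 0 ≤ x := by linarith
  have hH0 : 0 ≤ H := by linarith
  have hxθ : 1 ≤ x ^ θ := Real.one_le_rpow hx hθ0.le
  obtain ⟨R, hR⟩ : ∃ R : ℝ, R = Real.sqrt (H * x ^ θ) := ⟨_, rfl⟩
  have hR1 : 1 ≤ R := by
    rw [hR]
    apply Real.le_sqrt_of_sq_le
    nlinarith
  rw [← hR]
  have hcn : cn S x H = num' S (Ioc ⌊x⌋₊ ⌊x + H⌋₊) := by
    unfold cn
    rw [iv_eq hx0 hH0]
  rw [hcn, iv_eq hx0 hH0]
  obtain ⟨a, ha⟩ : ∃ a : ℕ, a = ⌊x⌋₊ := ⟨_, rfl⟩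
  obtain ⟨b, hb⟩ : ∃ b : ℕ, b = ⌊x + H⌋₊ := ⟨_, rfl⟩
  have hcard := card_iv hx0 hH0
  rw [← ha, ← hb] at hcard ⊢
  have hab : a ≤ b := by
    rw [ha, hb]
    exact Nat.floor_le_floor (by linarith)
  obtain ⟨k, hk1, hk2⟩ := exists_nat_pow_near hx (show (1 : ℝ) < 2 by norm_num)
  have hak : 2 ^ k ≤ a := by
    rw [ha]
    apply Nat.le_floor
    push_cast
    exact hk1
  have hak2 : a < 2 ^ (k + 1) := by
    rw [ha, Nat.floor_lt hx0]
    push_cast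
    exact hk2
  have hbk : b < 2 ^ (k + 2) := by
    rw [hb, Nat.floor_lt (by linarith)]
    push_cast
    have : (2 : ℝ) ^ (k + 2) = 2 * 2 ^ (k + 1) := by ring
    rw [this]
    linarith
  have h2kx : (2 : ℝ) ^ (θ * k) ≤ x ^ θ := by
    rw [mul_comm, Real.rpow_mul (by norm_num), Real.rpow_natCast]
    exact Real.rpow_le_rpow (by positivity) hk1 hθ0.le
  rcases lt_or_ge k K with hkK | hkK
  · -- small `x`
    have h1 := dev_le S (Ioc a b)
    have h2 : ((Ioc a b).card : ℝ) ≤ H + 1 := by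
      rw [Nat.card_Ioc, Nat.cast_sub hab]
      exact hcard
    have h3 : (2 : ℝ) ^ (k + 1) ≤ 2 ^ K := pow_le_pow_right₀ (by norm_num) (by omega)
    have h4 : H + 1 ≤ 2 ^ (K + 1) := by
      rw [pow_succ]
      linarith
    have h5 : (0 : ℝ) < 2 ^ (K + 1) := by positivity
    have h6 : (2 : ℝ) ^ (K + 1) ≤ (2 * C₁ + 2 ^ (K + 1)) * R := by nlinarith
    linarith
  · -- large `x`
    obtain ⟨c, hc⟩ : ∃ c : ℕ, c = min b (2 ^ (k + 1) - 1) := ⟨_, rfl⟩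
    have hpow : 0 < 2 ^ (k + 1) := by positivity
    have hac : a ≤ c := by rw [hc]; omega
    have hcb : c ≤ b := by rw [hc]; omega
    have hck : c < 2 ^ (k + 1) := by rw [hc]; omega
    have hacR : (a : ℝ) ≤ c := by exact_mod_cast hac
    have hcbR : (c : ℝ) ≤ b := by exact_mod_cast hcb
    rw [dev_Ioc S hac hcb]
    have hS1 : ∀ (h y : ℝ), 0 ≤ h → h ≤ H + 1 → 0 ≤ y → y ≤ (2 : ℝ) ^ θ * x ^ θ →
        Real.sqrt (h * y) ≤ C₁ * R := by
      intro h y hh0 hh hy0 hy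
      rw [hC₁, hR, ← Real.sqrt_mul (by positivity)]
      apply Real.sqrt_le_sqrt
      have e1 : h ≤ 2 * H := by linarith
      have e2 : h * y ≤ (2 * H) * ((2 : ℝ) ^ θ * x ^ θ) := mul_le_mul e1 hy hy0 (by linarith)
      refine e2.trans (le_of_eq ?_)
      ring
    have h2θ : (1 : ℝ) ≤ 2 ^ θ := Real.one_le_rpow (by norm_num) hθ0.le
    have h1 : |(num' S (Ioc a c) : ℝ) - ∑ n ∈ Ioc a c, pc n| ≤ C₁ * R := by
      refine (hK k hkK a c (by omega) hac hck).trans (hS1 _ _ (by linarith) (by linarith)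
        (by positivity) (h2kx.trans ?_))
      have : 0 ≤ x ^ θ := by linarith
      nlinarith
    have h2 : |(num' S (Ioc c b) : ℝ) - ∑ n ∈ Ioc c b, pc n| ≤ C₁ * R := by
      rcases lt_or_ge b (2 ^ (k + 1)) with hb1 | hb1
      · have : c = b := by rw [hc]; omega
        rw [this, Ioc_self]
        unfold num'
        simp only [Finset.filter_empty, Finset.card_empty, Nat.cast_zero, Finset.sum_empty, sub_zero,
          abs_zero]
        positivity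
      · have hc1 : 2 ^ (k + 1) ≤ c + 1 := by rw [hc]; omega
        refine (hK (k + 1) (by omega) c b hc1 hcb hbk).trans (hS1 _ _ (by linarith) (by linarith)
          (by positivity) ?_)
        have e : (2 : ℝ) ^ (θ * ((k + 1 : ℕ) : ℝ)) = 2 ^ θ * 2 ^ (θ * k) := by
          rw [← Real.rpow_add (by norm_num)]
          congr 1
          push_cast
          ring
        rw [e]
        exact mul_le_mul_of_nonneg_left h2kx (by positivity)
    have h3 : (0 : ℝ) < 2 ^ (K + 1) := by positivity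
    have h4 := abs_add_le ((num' S (Ioc a c) : ℝ) - ∑ n ∈ Ioc a c, pc n)
      ((num' S (Ioc c b) : ℝ) - ∑ n ∈ Ioc c b, pc n)
    nlinarith

end Pool.Agent.Q151.SI
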