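import Pool.Agent.Q120.SI.Stm
import Pool.Agent.Q299.RZ.Blk

/-!
# Project SI (helper120), job UPB: all intervals of a block
-/

set_option autoImplicit false

namespace Pool.Agent.Q151.SI

open Finset MeasureTheory Filter Pool.Agent.Q120.ET Pool.Agent.Q120.GM Pool.Agent.Q120.GE
open Pool.Agent.Q120.RZ Pool.Agent.Q120.SI
open scoped Topology

theorem pc_nonneg (n : ℕ) : 0 ≤ pc n := Pool.Agent.Q111.GE.pc_nonneg n

theorem pc_le_one (n : ℕ) : pc n ≤ 1 := Pool.Agent.Q111.GE.pc_le_one n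

theorem sum_pc_nonneg (I : Finset ℕ) : 0 ≤ ∑ n ∈ I, pc n := Finset.sum_nonneg fun n _ => pc_nonneg n

theorem sum_pc_le (I : Finset ℕ) : ∑ n ∈ I, pc n ≤ (I.card : ℝ) := by
  calc ∑ n ∈ I, pc n ≤ ∑ n ∈ I, (1 : ℝ) := Finset.sum_le_sum fun n _ => pc_le_one n
    _ = (I.card : ℝ) := by simp

theorem num_le (S : Set ℕ) (I : Finset ℕ) : (num' S I : ℝ) ≤ (I.card : ℝ) := by
  classical
  unfold num'
  exact_mod_cast Finset.card_filter_le _ _

/-- the deviation is at most the number of elements -/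
theorem dev_le (S : Set ℕ) (I : Finset ℕ) : |(num' S I : ℝ) - ∑ n ∈ I, pc n| ≤ (I.card : ℝ) := by
  have h1 := sum_pc_nonneg I
  have h2 := sum_pc_le I
  have h3 := num_le S I
  have h4 : (0 : ℝ) ≤ (num' S I : ℝ) := Nat.cast_nonneg _
  rw [abs_le]
  constructor <;> linarith

theorem t_UPB : J_UPB := by
  intro hT β hβ
  have hb2 : 0 < β / 2 := by linarith
  filter_upwards [Q299.RZ.ev_exp hb2, eventually_ge_atTop 2] with k hk hk2 Ω _ μ _ A hA
  obtain ⟨w, hw⟩ : ∃ w : ℝ, w = (2 : ℝ) ^ (β * k) := ⟨_, rfl⟩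
  obtain ⟨v, hv⟩ : ∃ v : ℝ, v = (2 : ℝ) ^ (β / 2 * k) := ⟨_, rfl⟩
  have hv0 : 0 < v := by rw [hv]; positivity
  have hw0 : 0 < w := by rw [hw]; positivity
  have hwv : w = v * v := by
    rw [hw, hv, ← Real.rpow_add (by norm_num)]
    congr 1
    ring
  rw [← hw]
  rw [← hv] at hk
  have hl2 := Real.log_two_gt_d9
  have hkR : (2 : ℝ) ≤ k := by exact_mod_cast hk2
  have hbig : (2 * (k : ℝ) + 3) * Real.log 2 ≤ w / 16 := by
    have h1 : 3 * Real.log 2 * 16 ≤ v := by nlinarith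
    have h2 : (2 : ℝ) ≤ v := by nlinarith
    have h3 : w / 16 = v * (v / 16) := by rw [hwv]; ring
    rw [h3]
    have h4 : 2 * (((k : ℝ) + 1) * Real.log 2) ≤ v * (v / 16) := by
      have := mul_le_mul h2 hk (by positivity) hv0.le
      exact this
    have h5 : 3 * (((k : ℝ) + 1) * Real.log 2) ≤ v * (v / 16) := by
      have h6 : (3 : ℝ) ≤ v := by nlinarith
      exact mul_le_mul h6 hk (by positivity) hv0.le
    nlinarith
  have hone : ∀ p ∈ (range (2 ^ (k + 1))) ×ˢ (range (2 ^ (k + 1))),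
      μ.real {ω | p.1 ≤ p.2 ∧ Real.sqrt (((p.2 : ℝ) - p.1) * w) <
        |(num' (A ω) (Ioc p.1 p.2) : ℝ) - ∑ n ∈ Ioc p.1 p.2, pc n|} ≤ 2 * Real.exp (-(w / 8)) := by
    rintro ⟨a, b⟩ _
    simp only
    rcases lt_or_ge b a with hab | hab
    · have h0 : {ω | a ≤ b ∧ Real.sqrt (((b : ℝ) - a) * w) <
          |(num' (A ω) (Ioc a b) : ℝ) - ∑ n ∈ Ioc a b, pc n|} = ∅ := by
        ext ω
        simp only [Set.mem_ofPred_eq, Set.mem_empty_iff_false, iff_false]
        rintro ⟨h1, _⟩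
        omega
      rw [h0, measureReal_empty]
      positivity
    have hcard : ((Ioc a b).card : ℝ) = (b : ℝ) - a := by
      rw [Nat.card_Ioc, Nat.cast_sub hab]
    obtain ⟨h, hh⟩ : ∃ h : ℝ, h = (b : ℝ) - a := ⟨_, rfl⟩
    have hh0 : 0 ≤ h := by
      rw [hh, sub_nonneg]
      exact_mod_cast hab
    rw [← hh] at hcard ⊢
    rcases le_or_gt h w with hhw | hhw
    · have h0 : {ω | a ≤ b ∧ Real.sqrt (h * w) <
          |(num' (A ω) (Ioc a b) : ℝ) - ∑ n ∈ Ioc a b, pc n|} = ∅ := by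
        ext ω
        simp only [Set.mem_ofPred_eq, Set.mem_empty_iff_false, iff_false, not_and, not_lt]
        intro _
        refine (dev_le (A ω) (Ioc a b)).trans ?_
        rw [hcard]
        apply Real.le_sqrt_of_sq_le
        nlinarith
      rw [h0, measureReal_empty]
      positivity
    · have hhp : 0 < h := lt_trans hw0 hhw
      have hs0 : 0 < Real.sqrt (h * w) := Real.sqrt_pos.mpr (by positivity)
      have hsq : Real.sqrt (h * w) ^ 2 = h * w := Real.sq_sqrt (by positivity)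
      have hsh : Real.sqrt (h * w) ≤ h := by
        rw [Real.sqrt_le_left hhp.le]
        nlinarith
      have h1 := hT Ω μ pc A hA (Ioc a b) h (Real.sqrt (h * w))
        (by rw [← hcard]; exact sum_pc_le _) hs0
      have h2 : {ω | a ≤ b ∧ Real.sqrt (h * w) <
          |(num' (A ω) (Ioc a b) : ℝ) - ∑ n ∈ Ioc a b, pc n|} ⊆
          {ω | Real.sqrt (h * w) ≤ |(num' (A ω) (Ioc a b) : ℝ) - ∑ n ∈ Ioc a b, pc n|} :=
        fun ω hω => hω.2.le
      refine (measureReal_mono h2 (measure_ne_top μ _)).trans (h1.trans ?_)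
      have h3 : w / 8 ≤ Real.sqrt (h * w) ^ 2 / (4 * (h + Real.sqrt (h * w))) := by
        rw [hsq, div_le_div_iff₀ (by norm_num) (by positivity)]
        nlinarith
      have h4 : Real.exp (-(Real.sqrt (h * w) ^ 2 / (4 * (h + Real.sqrt (h * w))))) ≤
          Real.exp (-(w / 8)) := Real.exp_le_exp.2 (by linarith)
      linarith
  have hsub : {ω | ∃ a b : ℕ, 2 ^ k ≤ a + 1 ∧ a ≤ b ∧ b < 2 ^ (k + 1) ∧
      Real.sqrt (((b : ℝ) - a) * w) < |(num' (A ω) (Ioc a b) : ℝ) - ∑ n ∈ Ioc a b, pc n|} ⊆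
      ⋃ p ∈ (range (2 ^ (k + 1))) ×ˢ (range (2 ^ (k + 1))),
        {ω | p.1 ≤ p.2 ∧ Real.sqrt (((p.2 : ℝ) - p.1) * w) <
        |(num' (A ω) (Ioc p.1 p.2) : ℝ) - ∑ n ∈ Ioc p.1 p.2, pc n|} := by
    rintro ω ⟨a, b, _, h2, h3, h4⟩
    refine Set.mem_biUnion (x := (a, b)) (Finset.mem_coe.2 ?_) ⟨h2, h4⟩
    rw [Finset.mem_product, Finset.mem_range, Finset.mem_range]
    exact ⟨lt_of_le_of_lt h2 h3, h3⟩
  have h1 := (measureReal_mono hsub (measure_ne_top μ _)).trans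
    (measureReal_biUnion_finset_le _ _)
  refine h1.trans ((Finset.sum_le_sum hone).trans ?_)
  rw [Finset.sum_const, Finset.card_product, Finset.card_range, nsmul_eq_mul]
  have e : Real.exp ((2 * (k : ℝ) + 3) * Real.log 2) = 2 ^ (k + 1) * 2 ^ (k + 1) * 2 := by
    have : (2 * (k : ℝ) + 3) * Real.log 2 = Real.log (2 ^ (k + 1) * 2 ^ (k + 1) * 2) := by
      rw [Real.log_mul (by positivity) (by norm_num), Real.log_mul (by positivity) (by positivity),
        Real.log_pow]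
      push_cast
      ring
    rw [this, Real.exp_log (by positivity)]
  have h3 : ((2 ^ (k + 1) * 2 ^ (k + 1) : ℕ) : ℝ) * (2 * Real.exp (-(w / 8))) =
      Real.exp ((2 * (k : ℝ) + 3) * Real.log 2) * Real.exp (-(w / 8)) := by
    rw [e]; push_cast; ring
  rw [h3, ← Real.exp_add]
  apply Real.exp_le_exp.2
  linarith

end Pool.Agent.Q151.SI
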