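import Pool.Agent.Q151.SI.Upb
import Pool.Agent.Q120.ET.Construct

/-!
# Project SI (helper120), job MIXB: the general construction with independent blocks
-/

set_option autoImplicit false

namespace Pool.Agent.Q151.SI

open Finset MeasureTheory Filter Pool.Agent.Q120.ET Pool.Agent.Q120.GM Pool.Agent.Q120.GE
open Pool.Agent.Q120.RZ Pool.Agent.Q120.SI ProbabilityTheory
open scoped Topology

/-- the convexity of the relative entropy, for one atom -/
theorem conv_atom {c P q : ℝ} (hc : 0 < c) (hP : 0 ≤ P) (hq0 : 0 ≤ q) (hq1 : q ≤ 1) :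
    ((1 - q) * c + q * P) * Real.log (((1 - q) * c + q * P) / c) ≤ q * (P * Real.log (P / c)) := by
  obtain ⟨r, hr⟩ : ∃ r : ℝ, r = P / c := ⟨_, rfl⟩
  have hr0 : 0 ≤ r := by rw [hr]; positivity
  have hPr : P = c * r := by rw [hr]; field_simp
  have h1 : ((1 - q) * c + q * P) / c = (1 - q) * 1 + q * r := by
    rw [hPr]
    field_simp
  have h2 := Real.convexOn_mul_log.2 (Set.mem_Ici.mpr zero_le_one) (Set.mem_Ici.mpr hr0)
    (show 0 ≤ 1 - q by linarith) hq0 (by ring)
  simp only [smul_eq_mul, Real.log_one, mul_zero, zero_add] at h2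
  rw [h1, ← hr]
  have h3 : (1 - q) * c + q * P = c * ((1 - q) * 1 + q * r) := by rw [hPr]; ring
  rw [h3, hPr]
  have h4 := mul_le_mul_of_nonneg_left h2 hc.le
  nlinarith

theorem tr_blockSet (k : ℕ) (ω : ℕ → Finset ℕ) :
    tr (fun ω : ℕ → Finset ℕ => blockSet ω) (block k) ω = block k ∩ ω k := by
  ext n
  rw [mem_tr, mem_inter]
  constructor
  · rintro ⟨h1, h2⟩
    exact ⟨h1, (mem_blockSet h1 ω).1 h2⟩
  · rintro ⟨h1, h2⟩
    exact ⟨h1, (mem_blockSet h1 ω).2 h2⟩

theorem t_MIXB : J_MIXB := by
  classical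
  intro P q E _ hP hq
  obtain ⟨p, hp⟩ : ∃ p : ℕ → Finset ℕ → ℝ, p = fun k T => if 2 ≤ k then
    (1 - q k) * cramerOn (block k) T + q k * P k T else if T = ∅ then 1 else 0 := ⟨_, rfl⟩
  have hp2 : ∀ k, 2 ≤ k → ∀ T, p k T = (1 - q k) * cramerOn (block k) T + q k * P k T := by
    intro k hk T
    rw [hp]
    simp only [if_pos hk]
  have hc : ∀ k, 2 ≤ k → ∀ T ∈ (block k).powerset, 0 < cramerOn (block k) T := by
    intro k hk T hT
    exact cramerOn_pos (fun n hn => three_le_of_mem_block hk hn) (mem_powerset.1 hT)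
  have hp0 : ∀ k, ∀ T ∈ (block k).powerset, 0 ≤ p k T := by
    intro k T hT
    by_cases hk : 2 ≤ k
    · rw [hp2 k hk]
      have h1 := (hc k hk T hT).le
      have h2 := (hP k hk).1 T hT
      have h3 := hq k
      have h4 : 0 ≤ 1 - q k := by linarith [h3.2]
      have h5 := h3.1
      positivity
    · rw [hp]
      simp only [if_neg hk]
      split_ifs <;> norm_num
  have hp1 : ∀ k, ∑ T ∈ (block k).powerset, p k T = 1 := by
    intro k
    by_cases hk : 2 ≤ k
    · simp_rw [hp2 k hk]
      rw [sum_add_distrib, ← mul_sum, ← mul_sum, sum_cramerOn, (hP k hk).2]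
      ring
    · rw [hp]
      simp only [if_neg hk]
      rw [Finset.sum_ite_eq' (block k).powerset ∅ (fun _ => (1 : ℝ)), if_pos (empty_mem_powerset _)]
  have hprob : IsProbabilityMeasure (blockLaw p) := isProb_blockLaw hp0 hp1
  obtain ⟨s, hs⟩ : ∃ s : ℕ → Set (ℕ → Finset ℕ), s = fun k =>
      (fun ω : ℕ → Finset ℕ => ω k) ⁻¹' {T | block k ∩ T ∈ E k} := ⟨_, rfl⟩
  have hsE : ∀ k ω, (tr (fun ω : ℕ → Finset ℕ => blockSet ω) (block k) ω ∈ E k ↔ ω ∈ s k) := by
    intro k ω
    rw [tr_blockSet, hs]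
    rfl
  refine ⟨ℕ → Finset ℕ, inferInstance, blockLaw p, hprob, fun ω => blockSet ω,
    isRandomSet_blockSet, ?_, ?_, ?_⟩
  · intro k hk
    rw [relEntropy_blockLaw hp0 hp1, mul_sum]
    refine sum_le_sum (fun T hT => ?_)
    rw [hp2 k hk]
    exact conv_atom (hc k hk T hT) ((hP k hk).1 T hT) (hq k).1 (hq k).2
  · intro hns
    have hsm : ∀ k, MeasurableSet (s k) := fun k => by
      rw [hs]; exact (measurable_pi_apply k) MeasurableSet.of_discrete
    have hind : iIndepSet s (blockLaw p) := by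
      rw [hs]; exact indep_blockLaw hp0 hp1 (fun k => {T | block k ∩ T ∈ E k})
    have hge : ∀ k, 2 ≤ k → q k * ∑ T ∈ (block k).powerset with T ∈ E k, P k T ≤
        (blockLaw p (s k)).toReal := by
      intro k hk
      have h1 : s k = (fun ω : ℕ → Finset ℕ => ω k) ⁻¹' {T | block k ∩ T ∈ E k} := by rw [hs]
      rw [h1, blockLaw_pre hp0 hp1, blockMeasure_apply (hp0 k), ENNReal.toReal_ofReal]
      · have h2 : (block k).powerset.filter (fun T => T ∈ {T : Finset ℕ | block k ∩ T ∈ E k}) =
            (block k).powerset.filter (fun T => T ∈ E k) := by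
          ext T
          rw [mem_filter, mem_filter, mem_powerset, Set.mem_ofPred_eq]
          constructor
          · rintro ⟨h3, h4⟩
            rw [inter_eq_right.2 h3] at h4
            exact ⟨h3, h4⟩
          · rintro ⟨h3, h4⟩
            rw [inter_eq_right.2 h3]
            exact ⟨h3, h4⟩
        rw [h2, mul_sum]
        refine sum_le_sum (fun T hT => ?_)
        rw [hp2 k hk]
        have h5 := (hc k hk T (mem_filter.1 hT).1).le
        have h6 : 0 ≤ 1 - q k := by linarith [(hq k).2]
        nlinarith [mul_nonneg h6 h5]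
      · exact sum_nonneg (fun T hT => hp0 k T (mem_filter.1 hT).1)
    have htop : ∑' k, blockLaw p (s k) = ⊤ := by
      by_contra hcon
      have h1 : Summable (fun k => (blockLaw p (s k)).toReal) := ENNReal.summable_toReal hcon
      apply hns
      rw [← summable_nat_add_iff 2] at h1 ⊢
      refine Summable.of_nonneg_of_le (fun n => ?_) (fun n => hge _ (by omega)) h1
      exact mul_nonneg (hq _).1 (sum_nonneg (fun T hT => (hP _ (by omega)).1 T (mem_filter.1 hT).1))
    have h1 := measure_limsup_eq_one hsm hind htop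
    have h2 : ∀ᵐ ω ∂blockLaw p, ω ∈ limsup s atTop := by
      have h3 : MeasurableSet (limsup s atTop) := MeasurableSet.measurableSet_limsup hsm
      exact (mem_ae_iff_prob_eq_one h3).2 h1
    filter_upwards [h2] with ω hω
    rw [mem_limsup_iff_frequently_mem] at hω
    exact hω.mono fun k hk => (hsE k ω).2 hk
  · intro hq1 hsum
    have hb : ∀ᶠ k in atTop, (blockLaw p).real (s k)ᶜ ≤
        ∑ T ∈ (block k).powerset with ¬ T ∈ E k, P k T := by
      filter_upwards [eventually_ge_atTop 2] with k hk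
      have h1 : (s k)ᶜ = (fun ω : ℕ → Finset ℕ => ω k) ⁻¹' {T | ¬ block k ∩ T ∈ E k} := by
        rw [hs]; rfl
      rw [Measure.real, h1, blockLaw_pre hp0 hp1, blockMeasure_apply (hp0 k), ENNReal.toReal_ofReal]
      · have h2 : (block k).powerset.filter (fun T => T ∈ {T : Finset ℕ | ¬ block k ∩ T ∈ E k}) =
            (block k).powerset.filter (fun T => ¬ T ∈ E k) := by
          ext T
          rw [mem_filter, mem_filter, mem_powerset, Set.mem_ofPred_eq]
          constructor
          · rintro ⟨h3, h4⟩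
            rw [inter_eq_right.2 h3] at h4
            exact ⟨h3, h4⟩
          · rintro ⟨h3, h4⟩
            rw [inter_eq_right.2 h3]
            exact ⟨h3, h4⟩
        rw [h2]
        refine le_of_eq (sum_congr rfl (fun T hT => ?_))
        rw [hp2 k hk, hq1 k]
        ring
      · exact sum_nonneg (fun T hT => hp0 k T (mem_filter.1 hT).1)
    have h1 := Pool.Agent.Q120.GM.bc hsum hb
    filter_upwards [h1] with ω hω
    filter_upwards [hω] with k hk
    rw [Set.notMem_compl_iff] at hk
    exact (hsE k ω).2 hk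

end Pool.Agent.Q151.SI
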