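import Pool.Agent.Q151.SI.Upb

/-!
# Project SI (helper120), job TLT: the tilted law of a block
-/

set_option autoImplicit false

namespace Pool.Agent.Q151.SI

open Finset MeasureTheory Filter Pool.Agent.Q120.ET Pool.Agent.Q120.GM Pool.Agent.Q120.GE
open Pool.Agent.Q120.RZ Pool.Agent.Q120.SI ProbabilityTheory
open scoped Topology

theorem t_TLT : J_TLT := by
  intro hTAIL hKL k hk I hI s hs0 hs1
  obtain ⟨d, hd⟩ : ∃ d : ℕ → ℝ, d = fun n => if n ∈ I then s else 0 := ⟨_, rfl⟩
  have hd0 : ∀ n, 0 ≤ d n := by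
    intro n
    rw [hd]
    simp only
    split_ifs
    · exact hs0
    · exact le_rfl
  have hd1 : ∀ n, d n ≤ 1 := by
    intro n
    rw [hd]
    simp only
    split_ifs
    · exact hs1
    · exact zero_le_one
  have hdI : ∀ n ∈ I, d n = s := by
    intro n hn
    rw [hd]
    simp only [if_pos hn]
  have hdN : ∀ n, n ∉ I → d n = 0 := by
    intro n hn
    rw [hd]
    simp only [if_neg hn]
  obtain ⟨p, hp⟩ : ∃ p : ℕ → ℝ, p = fun n => (1 - d n) * pc n := ⟨_, rfl⟩
  have hp0 : ∀ n, 0 ≤ p n := by
    intro n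
    rw [hp]
    exact mul_nonneg (by linarith [hd1 n]) (pc_nonneg n)
  have hp1 : ∀ n, p n ≤ 1 := by
    intro n
    rw [hp]
    have h1 := hd0 n
    have h2 := hd1 n
    have h3 := pc_nonneg n
    have h4 := pc_le_one n
    simp only
    nlinarith
  have hM := isModel p hp0 hp1
  obtain ⟨Ω, iΩ, μ, iμ, A, hA⟩ : ∃ (Ω : Type) (_ : MeasurableSpace Ω) (μ : Measure Ω)
      (_ : IsProbabilityMeasure μ) (A : Ω → Set ℕ), IsModel μ p A :=
    ⟨ℕ → Bool, inferInstance, prodMeasure p, inferInstance, trueSet, hM⟩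
  have hRS : IsRandomSet A := fun n => hA.meas n
  have hB : ∀ n ∈ block k, 3 ≤ n := fun n hn => three_le_of_mem_block hk hn
  obtain ⟨M, hMd⟩ : ∃ M : ℝ, M = ∑ n ∈ I, pc n := ⟨_, rfl⟩
  have hM0 : 0 ≤ M := by rw [hMd]; exact sum_pc_nonneg I
  rw [← hMd]
  refine ⟨fun T => lawOn μ A (block k) T, fun T _ => measureReal_nonneg, sum_law hRS (block k),
    ?_, ?_, ?_, ?_⟩
  · have h1 := hKL Ω μ A d (by rw [← hp]; exact hA) (block k) hB
    refine le_trans (le_of_eq rfl) (h1.trans (le_of_eq ?_))
    rw [hMd, mul_sum, mul_sum]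
    symm
    rw [← Finset.sum_subset hI]
    · refine sum_congr rfl (fun n hn => ?_)
      rw [hdI n hn]
    · intro n _ hn
      rw [hdN n hn]
      ring
  · have h1 := real_event (μ := μ) hRS (block k) (fun T => (1 - s / 2) * M < ((I ∩ T).card : ℝ))
    rw [← h1]
    have h2 : ∀ ω, ((I ∩ tr A (block k) ω).card : ℝ) = (num' (A ω) I : ℝ) := by
      intro ω
      classical
      unfold num'
      congr 2
      ext n
      rw [mem_inter, mem_tr, mem_filter]
      constructor
      · rintro ⟨h3, _, h5⟩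
        exact ⟨h3, h5⟩
      · rintro ⟨h3, h5⟩
        exact ⟨h3, hI h3, h5⟩
    simp only [h2]
    rcases (mul_nonneg hs0 hM0).eq_or_lt with h3 | h3
    · have e : s ^ 2 * M / 24 = 0 := by
        have : s ^ 2 * M = s * (s * M) := by ring
        rw [this, ← h3]
        ring
      rw [e, neg_zero, Real.exp_zero]
      have h4 : μ.real {ω | (1 - s / 2) * M < (num' (A ω) I : ℝ)} ≤ 1 := measureReal_le_one
      linarith
    · have hMp : 0 < M := by
        rcases hM0.eq_or_lt with h | h
        · rw [← h, mul_zero] at h3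
          exact absurd h3 (lt_irrefl _)
        · exact h
      have hsp : ∑ n ∈ I, p n = (1 - s) * M := by
        rw [hMd, mul_sum]
        refine sum_congr rfl (fun n hn => ?_)
        rw [hp]
        simp only [hdI n hn]
      have h5 := hTAIL Ω μ p A hA I M (s * M / 2) (by rw [hsp]; nlinarith) (by linarith)
      rw [hsp] at h5
      have h6 : {ω | (1 - s / 2) * M < (num' (A ω) I : ℝ)} ⊆
          {ω | s * M / 2 ≤ |(num' (A ω) I : ℝ) - (1 - s) * M|} := by
        intro ω hω
        have hω' : (1 - s / 2) * M < (num' (A ω) I : ℝ) := hω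
        show s * M / 2 ≤ |(num' (A ω) I : ℝ) - (1 - s) * M|
        refine le_trans ?_ (le_abs_self _)
        linarith
      refine (measureReal_mono h6 (measure_ne_top μ _)).trans (h5.trans ?_)
      have h7 : s ^ 2 * M / 24 ≤ (s * M / 2) ^ 2 / (4 * (M + s * M / 2)) := by
        rw [div_le_div_iff₀ (by norm_num) (by positivity)]
        have h8 : 0 ≤ s ^ 2 * M * M := by positivity
        have h9 : (s * M / 2) ^ 2 * 24 = 6 * (s ^ 2 * M * M) := by ring
        rw [h9]
        have h10 : s ^ 2 * M * (4 * (M + s * M / 2)) = (4 + 2 * s) * (s ^ 2 * M * M) := by ring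
        rw [h10]
        exact mul_le_mul_of_nonneg_right (by linarith) h8
      have h11 : Real.exp (-((s * M / 2) ^ 2 / (4 * (M + s * M / 2)))) ≤ Real.exp (-(s ^ 2 * M / 24)) :=
        Real.exp_le_exp.2 (by linarith)
      linarith
  · intro J hJ hJI
    have h1 := real_event (μ := μ) hRS (block k) (fun T => Disjoint T J)
    rw [← h1]
    have h2 : {ω | Disjoint (tr A (block k) ω) J} = {ω | ∀ n ∈ J, (n ∈ A ω ↔ n ∈ (∅ : Finset ℕ))} := by
      ext ω
      simp only [Set.mem_ofPred_eq]
      rw [Finset.disjoint_right]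
      constructor
      · intro h n hn
        constructor
        · intro h3
          exact absurd (mem_tr.2 ⟨hJ hn, h3⟩) (h hn)
        · intro h3
          exact absurd h3 (Finset.notMem_empty n)
      · intro h n hn h3
        exact absurd ((h n hn).1 (mem_tr.1 h3).2) (Finset.notMem_empty n)
    rw [h2]
    have h3 := (Pool.Agent.Q111.GE.t_LAW Ω μ A).1 p hA J ∅ (Finset.empty_subset J)
    unfold lawOn at h3
    rw [h3, Finset.prod_empty, one_mul, Finset.sdiff_empty]
    refine prod_congr rfl (fun n hn => ?_)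
    have h4 : n ∉ I := Finset.disjoint_left.1 hJI hn
    rw [hp]
    simp only [hdN n h4]
    ring
  · intro hs T hT hne
    rw [Finset.disjoint_left]
    intro n hnT hnI
    apply hne
    have h3 := (Pool.Agent.Q111.GE.t_LAW Ω μ A).1 p hA (block k) T (mem_powerset.1 hT)
    simp only
    rw [h3, Finset.prod_eq_zero hnT, zero_mul]
    rw [hp]
    simp only [hdI n hnI, hs]
    ring

end Pool.Agent.Q151.SI
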